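import Pool.Agent.Y333.FT2.RowB

set_option autoImplicit false
set_option linter.all false

/-! FT2-Row: `StRow` from `StNrmV` and `StNrmR` (job 966 of helper160). -/

namespace Pool.Agent.Y333.FT2

open Polynomial IsDedekindDomain WithZero
open Pool.Agent.Y160.SE (IsPw)
open Pool.Agent.Y160.FT
open Pool.Agent.Y228.FT (vpr vpr_lt_one vpr_eq_one vpr_le vpr_self val_ne_zero val_unit isPw_one
  isPw_exp factor EE_map FF_eval exists_prime_of_place val_sqf)

theorem isPw_exp_iff {ℓ : ℕ} {n t : ℤ} (h : n = ℓ * t) : IsPw ℓ (exp n) := by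
  refine ⟨exp t, ?_⟩
  rw [← exp_nsmul, h]
  simp

/-- the norm of an element which is a unit at the places over `Q` is prime to `Q` -/
theorem nrm_unit (h1 : StNrmV) {k R : Type} [Field k] [CommRing R] [IsDedekindDomain R]
    [Algebra k R] {x u : R} {F : k[X][X]} {c₀ : k} (hc₀ : c₀ ≠ 0) (hF : F.leadingCoeff = C c₀)
    (hFd : 0 < F.natDegree) (hP : Pres x u F) {a : R} (ha : a ≠ 0) {Q : k[X]} (hQ : Irreducible Q)
    (h : ∀ v : HeightOneSpectrum R, v.intValuation (aeval x Q) ≠ 1 → v.intValuation a = 1) :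
    ¬ Q ∣ Nx (k := k) x a := by
  set ℓ' := (Nx (k := k) x a).natDegree + 1 with hℓ'
  obtain ⟨h2, h3⟩ := h1 k R x u F c₀ ℓ' hc₀ hF hFd hP a ha
  obtain ⟨n, y, hy, he⟩ := (h3 Q hQ).1 fun v hv => by rw [h v hv]; exact isPw_one _
  have hn : n = 0 := by
    by_contra hn
    have hy0 : y ≠ 0 := fun h0 => hy (h0 ▸ dvd_zero _)
    have h4 : (Nx (k := k) x a).natDegree = ℓ' * n * Q.natDegree + y.natDegree := by
      conv_lhs => rw [he]
      rw [natDegree_mul (pow_ne_zero _ hQ.ne_zero) hy0, natDegree_pow]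
    have h5 : 0 < Q.natDegree := hQ.natDegree_pos
    have h6 : ℓ' * 1 * 1 ≤ ℓ' * n * Q.natDegree :=
      Nat.mul_le_mul (Nat.mul_le_mul_left _ (Nat.pos_of_ne_zero hn)) h5
    omega
  rw [he, hn, mul_zero, pow_zero, one_mul]
  exact hy

theorem C_dvd_FF {k : Type} [Field k] (ℓ q : ℕ) {g p : k[X]} (l : List (k[X] × k)) (h : p ∣ g) :
    C p ∣ FF ℓ q g l - (EE ℓ (C : k[X] →+* k[X][X]) l X) ^ q := by
  obtain ⟨r, rfl⟩ := h
  refine ⟨C r, ?_⟩
  unfold FF
  rw [add_sub_cancel_right, C_mul]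

theorem stRow (h1 : StNrmV) (h2 : StNrmR) : StRow := by
  intro ℓ q s k _ g l b hℓ hq hgm hgd hl hsep hcop R L _ _ _ _ _ _ x u hP z hz0 hz
  classical
  set G : k[X] := g + (EE ℓ (RingHom.id k[X]) l b) ^ q with hG
  have hℓ0 : 0 < ℓ := hℓ.pos
  have hq0 : 0 < q := by rw [hq]; exact pow_pos hℓ0 _
  obtain ⟨c₀, hc₀, hE1, hE2, hF1, hF2⟩ := FF_lc hℓ0 hq0 g l hl
  have hFd : 0 < (FF ℓ q g l).natDegree := by rw [hF1]; exact Nat.mul_pos hq0 hE2
  have hcq : c₀ ^ q ≠ 0 := pow_ne_zero _ hc₀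
  have hFG : (FF ℓ q g l).eval b = G := FF_eval ℓ q g l b
  have hsq : Squarefree G := hsep.squarefree
  have hG0 : G ≠ 0 := hsq.ne_zero
  -- a representation of `z`
  obtain ⟨⟨a₀, d⟩, had⟩ := IsLocalization.surj (nonZeroDivisors R) z
  have hd0 : (d : R) ≠ 0 := nonZeroDivisors.ne_zero d.2
  have hinj := IsFractionRing.injective R L
  have hdL : algebraMap R L (d : R) ≠ 0 := (map_ne_zero_iff _ hinj).2 hd0
  have ha₀ : a₀ ≠ 0 := by
    rintro rfl
    simp only [map_zero] at had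
    exact mul_ne_zero hz0 hdL had
  set a : R := a₀ * (d : R) ^ (ℓ - 1) with ha
  have ha0 : a ≠ 0 := mul_ne_zero ha₀ (pow_ne_zero _ hd0)
  have haz : z * algebraMap R L (d : R) ^ ℓ = algebraMap R L a := by
    obtain ⟨m, rfl⟩ : ∃ m, ℓ = m + 1 := ⟨ℓ - 1, by omega⟩
    rw [ha, map_mul, map_pow, ← had, Nat.add_sub_cancel, pow_succ]
    ring
  have hva : ∀ v : HeightOneSpectrum R, v.valuation L z * v.intValuation (d : R) ^ ℓ =
      v.intValuation a := by
    intro v
    rw [← HeightOneSpectrum.valuation_of_algebraMap (K := L) v (d : R), ← map_pow, ← map_mul, haz,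
      HeightOneSpectrum.valuation_of_algebraMap]
  have hpw : ∀ v : HeightOneSpectrum R, v.intValuation (u - aeval x b) = 1 →
      IsPw ℓ (v.intValuation a) := by
    intro v hv
    rw [← hva]
    exact (hz v hv).mul (IsPw.self _)
  clear_value a
  -- the norm
  obtain ⟨hN0, hN⟩ := h1 k R x u _ _ ℓ hcq hF2 hFd hP a ha0
  obtain ⟨c, B, E, hc, hB, hE, hB0, hNa⟩ := factor hℓ0 G _ (Nx (k := k) x a) hN0 le_rfl (by
    intro v hv
    obtain ⟨Q, hQ, rfl⟩ := exists_prime_of_place v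
    have hQG : ¬ Q ∣ G := (vpr_eq_one hQ G).1 hv
    obtain ⟨n, y, hy, he⟩ := (hN Q hQ.irreducible).1 (fun w hw => hpw w
      (val_ub_one hP b hQ.irreducible (by rwa [hFG]) w hw))
    rw [he, map_mul, map_pow, vpr_self, (vpr_eq_one hQ y).2 hy, mul_one, mul_comm ℓ n, pow_mul]
    exact IsPw.self _)
  refine ⟨c, B, hc, hB, ?_, ?_⟩
  · -- the condition at the primes dividing `g`
    intro p hpm hpi hpg
    have hpG : ¬ p ∣ G := by
      intro hd
      have h3 : p ∣ (EE ℓ (RingHom.id k[X]) l b) ^ q := by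
        have := dvd_sub hd hpg
        rwa [hG, add_sub_cancel_left] at this
      exact hpi.not_isUnit (hcop.isUnit_of_dvd' hpg (hpi.prime.dvd_of_dvd_pow h3))
    have hpB : ¬ p ∣ B := by
      intro hd
      obtain ⟨N, hN'⟩ := hB
      exact hpG (hpi.prime.dvd_of_dvd_pow (hd.trans hN'))
    have hpx : (aeval x p : R) ≠ 0 := aeval_ne hP hFd hpi.ne_zero
    set T := (finite_ne hpx).toFinset with hT
    have hTm : ∀ v : HeightOneSpectrum R, v ∈ T ↔ v.intValuation (aeval x p) ≠ 1 := fun v => by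
      rw [hT, Set.Finite.mem_toFinset]
      rfl
    have hub : ∀ v ∈ T, v.intValuation (u - aeval x b) = 1 := fun v hv =>
      val_ub_one hP b hpi (by rwa [hFG]) v ((hTm v).1 hv)
    have hex : ∀ v : HeightOneSpectrum R, ∃ e : ℕ, v ∈ T → v.intValuation a = exp (-(e : ℤ)) ^ ℓ := by
      intro v
      by_cases hv : v ∈ T
      · obtain ⟨m, hm⟩ := exists_exp v ha0
        have h3 := hpw v (hub v hv)
        rw [hm] at h3
        obtain ⟨e, rfl⟩ := isPw_exp hℓ0.ne' h3
        refine ⟨e, fun _ => ?_⟩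
        rw [hm, ← exp_nsmul]
        congr 1
        push_cast
        rw [nsmul_eq_mul]
        ring
      · exact ⟨0, fun h => absurd h hv⟩
    choose e he using hex
    obtain ⟨s', hs0, hs'⟩ := exists_val_eq T e
    obtain ⟨a', b', ha'0, hb'0, ha', hb', hrel⟩ := exists_frac T ha0 (pow_ne_zero ℓ hs0)
      (fun v hv => by rw [he v hv, map_pow, hs' v hv])
    have hrel2 := congrArg (Nx (k := k) x) hrel
    rw [map_mul, map_mul, map_pow, hNa] at hrel2
    have hns : Nx (k := k) x s' ≠ 0 := (h1 k R x u _ _ ℓ hcq hF2 hFd hP s' hs0).1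
    have hpF : C p ∣ FF ℓ q g l - (EE ℓ (C : k[X] →+* k[X][X]) l X) ^ q := by
      exact C_dvd_FF ℓ q l hpg
    have hpw' : ∀ y : k[X], y ^ q = (y ^ (ℓ ^ s)) ^ ℓ := fun y => by
      rw [← pow_mul, ← pow_succ, hq]
    obtain ⟨w₁, hw₁⟩ := h2 k R x u _ _ c₀ q hq0 hc₀ hE1 hE2 hF1 hF2 hP p hpi hpF a'
    obtain ⟨w₂, hw₂⟩ := h2 k R x u _ _ c₀ q hq0 hc₀ hE1 hE2 hF1 hF2 hP p hpi hpF b'
    rw [hpw'] at hw₁ hw₂
    refine compare hpi ?_ hE hns
      (nrm_unit h1 hcq hF2 hFd hP ha'0 hpi fun v hv => ha' v ((hTm v).2 hv))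
      (nrm_unit h1 hcq hF2 hFd hP hb'0 hpi fun v hv => hb' v ((hTm v).2 hv)) hw₁ hw₂ hrel2
    intro hd
    rcases hpi.prime.dvd_or_dvd hd with hd | hd
    · exact hpi.not_isUnit (isUnit_of_dvd_unit hd (isUnit_C.2 hc.isUnit))
    · exact hpB hd
  · -- the last part
    intro c' n W hc' hBW v
    have hW : W ≠ 0 := by
      rintro rfl
      rw [zero_pow hℓ0.ne', mul_zero] at hBW
      exact hB0 hBW
    have hne : u - aeval x b ≠ 0 := by
      intro h0
      have h3 := ((Pool.Agent.Y46.FT.stRes k R x u _ hP b).1 G).2 (by rw [hFG])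
      rw [h0, zero_dvd_iff] at h3
      exact aeval_ne hP hFd hG0 h3
    by_cases hv : v.intValuation (u - aeval x b) = 1
    · rw [map_div₀, map_pow, HeightOneSpectrum.valuation_of_algebraMap, hv, one_pow, div_one]
      exact hz v hv
    · have hv1 := val_ub hP b (by rwa [hFG]) v hv hne
      -- the polynomial under the place
      have hvG : v.intValuation (aeval x G) ≠ 1 := by
        rw [mem_iff]
        have h3 := ((Pool.Agent.Y46.FT.stRes k R x u _ hP b).1 G).2 (by rw [hFG])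
        exact Ideal.mem_of_dvd _ h3 ((mem_iff v _).1 hv)
      obtain ⟨Q, hQ, hQG, hvQ⟩ := exists_under (x := x) v hG0 hvG
      obtain ⟨e, m, n', y, he, hy, hNy, hem⟩ := (hN Q hQ).2 b (by rwa [hFG])
        (fun w _ hw => hpw w hw) v hvQ hv
      have hvalN := congrArg (vpr hQ.prime).intValuation hNa
      have hyv := (vpr_eq_one hQ.prime y).2 hy
      obtain ⟨t, ht⟩ := exists_exp (vpr hQ.prime) (mul_ne_zero hW hE)
      have hGv : (vpr hQ.prime).intValuation G = exp (-1 : ℤ) := by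
        rcases val_sqf hsq (vpr hQ.prime) with h | h
        · exact absurd hQG ((vpr_eq_one hQ.prime G).1 h)
        · exact h
      have hcc : ∀ c : k, c ≠ 0 → (vpr hQ.prime).intValuation (C c) = 1 := fun c hc =>
        val_unit _ (isUnit_C.2 hc.isUnit)
      have hre : C c * B * E ^ ℓ = C c * C c' * G ^ n * (W * E) ^ ℓ := by
        rw [hBW, mul_pow]
        ring
      rw [hNy, hre, map_mul, map_mul, map_mul, map_mul, map_pow, map_pow, map_pow, vpr_self, hyv,
        hcc c hc, hcc c' hc', hGv, ht, mul_one, one_mul, one_mul, ← exp_nsmul, ← exp_nsmul,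
        ← exp_nsmul, ← exp_add, exp_inj] at hvalN
      have hdv : v.intValuation (d : R) ≠ 0 := val_ne_zero v hd0
      refine IsPw.of_mul hdv ?_
      rw [map_div₀, map_pow, HeightOneSpectrum.valuation_of_algebraMap, hv1, div_mul_eq_mul_div,
        hva, he, ← exp_nsmul, ← exp_sub]
      refine isPw_exp_iff (t := n' - t) ?_
      simp only [nsmul_eq_mul, smul_eq_mul] at hvalN ⊢
      have hem' : (e : ℤ) + ℓ * n' = m := by exact_mod_cast hem
      linear_combination hvalN - hem'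

end Pool.Agent.Y333.FT2
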