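import Pool.Agent.Y160.FT2.Stmts
import Pool.Agent.Y228.FT.TwB
import Pool.Agent.Y46.FT.Pres

set_option autoImplicit false
set_option linter.all false

/-! FT2-Row, part A: preliminaries (job 966 of helper160). -/

namespace Pool.Agent.Y333.FT2

open Polynomial IsDedekindDomain WithZero
open Pool.Agent.Y160.SE (IsPw)
open Pool.Agent.Y160.FT
open Pool.Agent.Y228.FT (vpr vpr_lt_one vpr_eq_one vpr_le vpr_self val_ne_zero val_unit isPw_one
  isPw_exp factor EE_map FF_eval exists_prime_of_place val_sqf)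

/-! ### the leading coefficients -/

theorem EE_lc {k : Type} [Field k] {ℓ : ℕ} (hℓ : 0 < ℓ) (l : List (k[X] × k))
    (hl : ∀ x ∈ l, x.2 ≠ 0) :
    ∃ c₀ : k, c₀ ≠ 0 ∧ (EE ℓ (C : k[X] →+* k[X][X]) l X).leadingCoeff = C c₀ ∧
      0 < (EE ℓ (C : k[X] →+* k[X][X]) l X).natDegree := by
  induction l with
  | nil =>
    refine ⟨1, one_ne_zero, ?_, ?_⟩
    · show (X : k[X][X]).leadingCoeff = C 1
      rw [leadingCoeff_X, C_1]
    · show 0 < (X : k[X][X]).natDegree
      rw [natDegree_X]
      exact one_pos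
  | cons p l ih =>
    obtain ⟨b, a⟩ := p
    have ha : a ≠ 0 := hl (b, a) List.mem_cons_self
    obtain ⟨c₀, h1, h2, h3⟩ := ih fun x hx => hl x (List.mem_cons_of_mem _ hx)
    have hd : 0 < (C (C a) * (EE ℓ (C : k[X] →+* k[X][X]) l X) ^ ℓ).natDegree := by
      rw [natDegree_C_mul (by rwa [Ne, C_eq_zero]), natDegree_pow]
      exact Nat.mul_pos hℓ h3
    refine ⟨a * c₀ ^ ℓ, mul_ne_zero ha (pow_ne_zero _ h1), ?_, ?_⟩
    · show (C b + C (C a) * (EE ℓ C l X) ^ ℓ).leadingCoeff = _
      rw [leadingCoeff_add_of_degree_lt (lt_of_le_of_lt degree_C_le (natDegree_pos_iff_degree_pos.1 hd)),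
        leadingCoeff_mul, leadingCoeff_C, leadingCoeff_pow, h2, ← C_pow, ← C_mul]
    · show 0 < (C b + C (C a) * (EE ℓ C l X) ^ ℓ).natDegree
      rw [natDegree_C_add]
      exact hd

theorem FF_lc {k : Type} [Field k] {ℓ q : ℕ} (hℓ : 0 < ℓ) (hq : 0 < q) (g : k[X])
    (l : List (k[X] × k)) (hl : ∀ x ∈ l, x.2 ≠ 0) :
    ∃ c₀ : k, c₀ ≠ 0 ∧ (EE ℓ (C : k[X] →+* k[X][X]) l X).leadingCoeff = C c₀ ∧
      0 < (EE ℓ (C : k[X] →+* k[X][X]) l X).natDegree ∧
      (FF ℓ q g l).natDegree = q * (EE ℓ (C : k[X] →+* k[X][X]) l X).natDegree ∧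
      (FF ℓ q g l).leadingCoeff = C (c₀ ^ q) := by
  obtain ⟨c₀, h1, h2, h3⟩ := EE_lc hℓ l hl
  have hd : 0 < ((EE ℓ (C : k[X] →+* k[X][X]) l X) ^ q).natDegree := by
    rw [natDegree_pow]
    exact Nat.mul_pos hq h3
  refine ⟨c₀, h1, h2, h3, ?_, ?_⟩
  · unfold FF
    rw [natDegree_C_add, natDegree_pow]
  · unfold FF
    rw [leadingCoeff_add_of_degree_lt (lt_of_le_of_lt degree_C_le (natDegree_pos_iff_degree_pos.1 hd)),
      leadingCoeff_pow, h2, C_pow]

/-! ### approximation -/

section approx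

variable {R : Type} [CommRing R] [IsDedekindDomain R]

theorem mem_iff (v : HeightOneSpectrum R) (x : R) : v.intValuation x ≠ 1 ↔ x ∈ v.asIdeal := by
  rw [← HeightOneSpectrum.intValuation_lt_one_iff_mem]
  exact ⟨fun h => lt_of_le_of_ne (HeightOneSpectrum.intValuation_le_one _ _) h, fun h => h.ne⟩

theorem one_iff (v : HeightOneSpectrum R) (x : R) : v.intValuation x = 1 ↔ x ∉ v.asIdeal := by
  rw [← mem_iff, not_not]

theorem exists_exp (v : HeightOneSpectrum R) {x : R} (hx : x ≠ 0) :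
    ∃ m : ℕ, v.intValuation x = exp (-(m : ℤ)) := ⟨_, HeightOneSpectrum.intValuation_if_neg _ hx⟩

theorem finite_ne {x : R} (hx : x ≠ 0) : {v : HeightOneSpectrum R | v.intValuation x ≠ 1}.Finite := by
  have h := Ideal.finite_factors (I := Ideal.span {x}) (by rwa [Ne, Ideal.zero_eq_bot, Ideal.span_singleton_eq_bot])
  refine h.subset fun v hv => ?_
  show v.asIdeal ∣ Ideal.span {x}
  rw [Ideal.dvd_iff_le, Ideal.span_singleton_le_iff_mem]
  exact (mem_iff v x).1 hv

theorem crt (T : Finset (HeightOneSpectrum R)) (e : HeightOneSpectrum R → ℕ)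
    (t : HeightOneSpectrum R → R) : ∃ s : R, ∀ v ∈ T, s - t v ∈ v.asIdeal ^ e v := by
  obtain ⟨y, hy⟩ := IsDedekindDomain.exists_forall_sub_mem_ideal (s := T)
    (fun v : HeightOneSpectrum R => v.asIdeal) e (fun v _ => v.prime)
    (fun v _ w _ hne h => hne (HeightOneSpectrum.ext h)) (fun v => t v)
  exact ⟨y, fun v hv => hy v hv⟩

theorem exists_val_eq (T : Finset (HeightOneSpectrum R)) (e : HeightOneSpectrum R → ℕ) :
    ∃ s : R, s ≠ 0 ∧ ∀ v ∈ T, v.intValuation s = exp (-(e v : ℤ)) := by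
  rcases T.eq_empty_or_nonempty with hT | ⟨v₀, hv₀⟩
  · exact ⟨1, one_ne_zero, fun v hv => absurd hv (by rw [hT]; exact Finset.notMem_empty v)⟩
  choose π hπ using fun v : HeightOneSpectrum R => v.intValuation_exists_uniformizer
  obtain ⟨s, hs⟩ := crt T (fun v => e v + 1) (fun v => π v ^ e v)
  suffices hmain : ∀ v ∈ T, v.intValuation s = exp (-(e v : ℤ)) by
    refine ⟨s, ?_, hmain⟩
    rintro rfl
    have := hmain v₀ hv₀
    rw [map_zero] at this
    exact exp_ne_zero this.symm
  intro v hv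
  have h1 : v.intValuation (π v ^ e v) = exp (-(e v : ℤ)) := by
    rw [map_pow, hπ, ← exp_nsmul]
    congr 1
    simp
  have h2 : v.intValuation (s - π v ^ e v) < v.intValuation (π v ^ e v) := by
    rw [h1]
    refine lt_of_le_of_lt ((HeightOneSpectrum.intValuation_le_pow_iff_mem v _ _).2 (hs v hv)) ?_
    rw [exp_lt_exp]
    push_cast
    omega
  have h3 : s = (s - π v ^ e v) + π v ^ e v := by ring
  rw [h3, Valuation.map_add_eq_of_lt_right _ h2, h1]

theorem exists_frac (T : Finset (HeightOneSpectrum R)) {a m : R} (ha : a ≠ 0) (hm : m ≠ 0)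
    (h : ∀ v ∈ T, v.intValuation a = v.intValuation m) :
    ∃ a' b' : R, a' ≠ 0 ∧ b' ≠ 0 ∧ (∀ v ∈ T, v.intValuation a' = 1) ∧
      (∀ v ∈ T, v.intValuation b' = 1) ∧ a * b' = a' * m := by
  classical
  rcases T.eq_empty_or_nonempty with hT | ⟨v₀, hv₀⟩
  · exact ⟨a, m, ha, hm, fun v hv => absurd hv (by rw [hT]; exact Finset.notMem_empty v),
      fun v hv => absurd hv (by rw [hT]; exact Finset.notMem_empty v), rfl⟩
  choose f hf using fun v : HeightOneSpectrum R => exists_exp v hm
  obtain ⟨b', hb'⟩ := crt (T ∪ (finite_ne hm).toFinset) (fun v => if v ∈ T then 1 else f v)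
    (fun v => if v ∈ T then 1 else 0)
  have h1 : ∀ v ∈ T, v.intValuation b' = 1 := by
    intro v hv
    have h2 := hb' v (Finset.mem_union_left _ hv)
    simp only [if_pos hv, pow_one] at h2
    rw [one_iff]
    intro h3
    have h4 : (1 : R) ∈ v.asIdeal := by
      have := v.asIdeal.sub_mem h3 h2
      rwa [sub_sub_cancel] at this
    exact v.isPrime.ne_top ((Ideal.eq_top_iff_one _).2 h4)
  set L := FractionRing R
  have hmL : algebraMap R L m ≠ 0 := by
    rw [Ne, FaithfulSMul.algebraMap_eq_zero_iff]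
    exact hm
  obtain ⟨a', ha'⟩ := HeightOneSpectrum.mem_integers_of_valuation_le_one (R := R) (K := L)
    (algebraMap R L (a * b') / algebraMap R L m) (by
      intro v
      rw [map_div₀, HeightOneSpectrum.valuation_of_algebraMap,
        HeightOneSpectrum.valuation_of_algebraMap]
      refine div_le_one_of_le₀ ?_ zero_le'
      rw [map_mul]
      by_cases hv : v ∈ T
      · rw [h1 v hv, mul_one, h v hv]
      · by_cases hv2 : v.intValuation m = 1
        · rw [hv2, ← map_mul]
          exact HeightOneSpectrum.intValuation_le_one _ _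
        · have h2 := hb' v (Finset.mem_union_right _ ((finite_ne hm).mem_toFinset.2 hv2))
          simp only [if_neg hv, sub_zero] at h2
          rw [← HeightOneSpectrum.intValuation_le_pow_iff_mem, ← hf] at h2
          calc v.intValuation a * v.intValuation b' ≤ 1 * v.intValuation m :=
                mul_le_mul' (HeightOneSpectrum.intValuation_le_one _ _) h2
            _ = v.intValuation m := one_mul _)
  have h2 : a * b' = a' * m := by
    apply IsFractionRing.injective R L
    rw [map_mul (algebraMap R L) a' m, ha', div_mul_cancel₀ _ hmL]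
  have h5 : ∀ v ∈ T, v.intValuation a' = 1 := by
    intro v hv
    have h3 := congrArg v.intValuation h2
    rw [map_mul, map_mul, h1 v hv, mul_one, h v hv] at h3
    have h4 : v.intValuation m ≠ 0 := val_ne_zero v hm
    exact (mul_right_cancel₀ h4 (by rw [one_mul]; exact h3)).symm
  refine ⟨a', b', ?_, ?_, h5, h1, h2⟩
  · rintro rfl
    have := h5 v₀ hv₀
    rw [map_zero] at this
    exact zero_ne_one this
  · rintro rfl
    have := h1 v₀ hv₀
    rw [map_zero] at this
    exact zero_ne_one this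

end approx

end Pool.Agent.Y333.FT2
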