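import Pool.Agent.Y333.FT2.RowA

set_option autoImplicit false
set_option linter.all false

/-! FT2-Row, part B: the places over `u = b(x)`, and the comparison modulo a prime
(job 966 of helper160). -/

namespace Pool.Agent.Y333.FT2

open Polynomial IsDedekindDomain WithZero
open Pool.Agent.Y160.SE (IsPw)
open Pool.Agent.Y160.FT
open Pool.Agent.Y228.FT (vpr vpr_lt_one vpr_eq_one vpr_le vpr_self val_ne_zero val_unit isPw_one
  isPw_exp factor EE_map FF_eval exists_prime_of_place val_sqf)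

section pres

variable {k R : Type} [Field k] [CommRing R] [IsDedekindDomain R] [Algebra k R] {x u : R}
  {F : k[X][X]}

theorem aeval_ne (hP : Pres x u F) (hF : 0 < F.natDegree) {p : k[X]} (hp : p ≠ 0) :
    aeval x p ≠ 0 := by
  intro h
  have h1 := (hP.ker (C p)).1 (by rw [eval₂_C]; exact h)
  have h2 : F.natDegree ≤ 0 := by
    have := natDegree_le_of_dvd h1 (C_ne_zero.2 hp)
    rwa [natDegree_C] at this
  omega

/-- `u - b(x)` is squarefree when `F(b)` is. -/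
theorem val_ub (hP : Pres x u F) (b : k[X]) (hG : Squarefree (F.eval b))
    (v : HeightOneSpectrum R) (hv : v.intValuation (u - aeval x b) ≠ 1) (hne : u - aeval x b ≠ 0) :
    v.intValuation (u - aeval x b) = exp (-1 : ℤ) := by
  obtain ⟨hd, hs⟩ := Pool.Agent.Y46.FT.stRes k R x u F hP b
  set π : R := u - aeval x b with hπ
  obtain ⟨m, hm⟩ := exists_exp v hne
  rw [hm] at hv ⊢
  have hm0 : m ≠ 0 := by
    rintro rfl
    exact hv (by simp)
  by_contra hcon
  have hm2 : 2 ≤ m := by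
    by_contra h
    have : m = 1 := by omega
    subst this
    exact hcon (by norm_num)
  have h1 : π ∈ v.asIdeal ^ 2 := by
    rw [← HeightOneSpectrum.intValuation_le_pow_iff_mem, hm, exp_le_exp]
    push_cast
    omega
  have h2 : v.asIdeal ^ 2 ∣ Ideal.span {π} := by
    rw [Ideal.dvd_iff_le, Ideal.span_singleton_le_iff_mem]
    exact h1
  obtain ⟨J, hJ⟩ := h2
  have hJ0 : J ≠ 0 := by
    rintro rfl
    rw [mul_zero, Ideal.zero_eq_bot, Ideal.span_singleton_eq_bot] at hJ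
    exact hne hJ
  -- `P J` is not contained in `P ^ 2 J`
  have h3 : ¬ (v.asIdeal * J ≤ Ideal.span {π}) := by
    intro hle
    rw [hJ, ← Ideal.dvd_iff_le] at hle
    have h4 : v.asIdeal * (v.asIdeal * J) ∣ 1 * (v.asIdeal * J) := by
      rw [one_mul]
      rwa [sq, mul_assoc] at hle
    have hne2 : v.asIdeal * J ≠ 0 := mul_ne_zero v.ne_bot hJ0
    have h5 := (mul_dvd_mul_iff_right hne2).1 h4
    rw [← isUnit_iff_dvd_one, Ideal.isUnit_iff] at h5
    exact v.isPrime.ne_top h5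
  obtain ⟨t, ht1, ht2⟩ := Set.not_subset.1 h3
  have h6 : t ^ 2 ∈ Ideal.span {π} := by
    have h7 : t ^ 2 ∈ (v.asIdeal * J) ^ 2 := Ideal.pow_mem_pow ht1 2
    have h8 : (v.asIdeal * J) ^ 2 ≤ Ideal.span {π} := by
      have h12 : (v.asIdeal * J) ^ 2 = (v.asIdeal ^ 2 * J) * J := by ring
      rw [hJ, h12]
      exact Ideal.mul_le_left
    exact h8 h7
  rw [Ideal.mem_span_singleton] at h6
  have ht2' : ¬ π ∣ t := fun h => ht2 (Ideal.mem_span_singleton.2 h)
  obtain ⟨p, hp⟩ := hs t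
  have h9 : π ∣ (aeval x (p ^ 2) : R) := by
    rw [map_pow]
    have h11 : (aeval x p : R) ^ 2 = t ^ 2 - (t - aeval x p) * (t + aeval x p) := by ring
    rw [h11]
    exact dvd_sub h6 (Dvd.dvd.mul_right hp _)
  rw [hd] at h9
  have h10 : F.eval b ∣ p := hG.dvd_pow_iff_dvd two_ne_zero |>.1 h9
  rw [← hd] at h10
  exact ht2' (by
    have := dvd_add hp h10
    rwa [sub_add_cancel] at this)

/-- a prime polynomial under a place -/
theorem exists_under (v : HeightOneSpectrum R) {G : k[X]} (hG0 : G ≠ 0)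
    (hG : v.intValuation (aeval x G) ≠ 1) :
    ∃ Q : k[X], Irreducible Q ∧ Q ∣ G ∧ v.intValuation (aeval x Q) ≠ 1 := by
  have hv := v.isPrime
  let I : Ideal k[X] := v.asIdeal.comap ((aeval x : k[X] →ₐ[k] R) : k[X] →+* R)
  haveI hI : I.IsPrime := Ideal.IsPrime.comap _
  have hGI : G ∈ I := (mem_iff v _).1 hG
  have hI0 : I ≠ ⊥ := by
    intro h
    rw [h, Ideal.mem_bot] at hGI
    exact hG0 hGI
  refine ⟨Submodule.IsPrincipal.generator I,
    (Submodule.IsPrincipal.prime_generator_of_isPrime I hI0).irreducible,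
    (Submodule.IsPrincipal.mem_iff_generator_dvd I).1 hGI, ?_⟩
  rw [mem_iff]
  exact Submodule.IsPrincipal.generator_mem I

/-- a place over an irreducible polynomial which does not divide `F(b)` -/
theorem val_ub_one (hP : Pres x u F) (b : k[X]) {Q : k[X]} (hQ : Irreducible Q)
    (hQG : ¬ Q ∣ F.eval b) (v : HeightOneSpectrum R) (hv : v.intValuation (aeval x Q) ≠ 1) :
    v.intValuation (u - aeval x b) = 1 := by
  obtain ⟨hd, hs⟩ := Pool.Agent.Y46.FT.stRes k R x u F hP b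
  by_contra h
  rw [← Ne, mem_iff] at h
  have h1 : aeval x (F.eval b) ∈ v.asIdeal := Ideal.mem_of_dvd _ ((hd _).2 dvd_rfl) h
  have h2 : aeval x Q ∈ v.asIdeal := (mem_iff v _).1 hv
  obtain ⟨r, t, h3⟩ := (hQ.coprime_iff_not_dvd.2 hQG)
  have h4 : (1 : R) ∈ v.asIdeal := by
    have h5 : (1 : R) = aeval x r * aeval x Q + aeval x t * aeval x (F.eval b) := by
      rw [← map_mul, ← map_mul, ← map_add, h3, map_one]
    rw [h5]
    exact v.asIdeal.add_mem (v.asIdeal.mul_mem_left _ h2) (v.asIdeal.mul_mem_left _ h1)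
  exact v.isPrime.ne_top ((Ideal.eq_top_iff_one _).2 h4)

end pres

section pol

variable {k : Type} [Field k]

theorem exists_split {Q : k[X]} (hQ : Irreducible Q) {y : k[X]} (hy : y ≠ 0) :
    ∃ (n : ℕ) (y' : k[X]), ¬ Q ∣ y' ∧ y = Q ^ n * y' := by
  have hf : FiniteMultiplicity Q y := FiniteMultiplicity.of_prime_left hQ.prime hy
  obtain ⟨y', h1, h2⟩ := hf.exists_eq_pow_mul_and_not_dvd
  exact ⟨_, y', h2, h1⟩

/-- comparison modulo `p` -/
theorem compare {ℓ : ℕ} {p : k[X]} (hp : Irreducible p) {A E S n₁ n₂ w₁ w₂ : k[X]}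
    (hA : ¬ p ∣ A) (hE : E ≠ 0) (hS : S ≠ 0) (h1 : ¬ p ∣ n₁) (h2 : ¬ p ∣ n₂)
    (hw1 : p ∣ n₁ - w₁ ^ ℓ) (hw2 : p ∣ n₂ - w₂ ^ ℓ)
    (h : A * E ^ ℓ * n₂ = n₁ * S ^ ℓ) : ∃ w : k[X], p ∣ A - w ^ ℓ := by
  obtain ⟨i, E', hE', rfl⟩ := exists_split hp hE
  obtain ⟨j, S', hS', rfl⟩ := exists_split hp hS
  have hpp := hp.prime
  -- the exponents agree
  have key : ∀ {a b : ℕ} {α β : k[X]}, ¬ p ∣ α → ¬ p ∣ β → p ^ a * α = p ^ b * β → a ≤ b := by
    intro a b α β hα hβ he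
    by_contra hlt
    push Not at hlt
    obtain ⟨c, rfl⟩ := Nat.exists_eq_add_of_lt hlt
    have h3 : p ^ b * (p * (p ^ c * α)) = p ^ b * β := by
      rw [← he]; ring
    have h4 := mul_left_cancel₀ (pow_ne_zero _ hp.ne_zero) h3
    exact hβ ⟨_, h4.symm⟩
  have hl : ¬ p ∣ A * E' ^ ℓ * n₂ := by
    intro hd
    rcases hpp.dvd_or_dvd hd with hd | hd
    · rcases hpp.dvd_or_dvd hd with hd | hd
      · exact hA hd
      · exact hE' (hpp.dvd_of_dvd_pow hd)
    · exact h2 hd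
  have hr : ¬ p ∣ n₁ * S' ^ ℓ := by
    intro hd
    rcases hpp.dvd_or_dvd hd with hd | hd
    · exact h1 hd
    · exact hS' (hpp.dvd_of_dvd_pow hd)
  have h3 : p ^ (i * ℓ) * (A * E' ^ ℓ * n₂) = p ^ (j * ℓ) * (n₁ * S' ^ ℓ) := by
    rw [mul_pow, mul_pow, ← pow_mul, ← pow_mul] at h
    linear_combination h
  have h4 : i * ℓ = j * ℓ := le_antisymm (key hl hr h3) (key hr hl h3.symm)
  rw [h4] at h3
  have h5 := mul_left_cancel₀ (pow_ne_zero _ hp.ne_zero) h3
  -- the residue field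
  haveI : Fact (Irreducible p) := ⟨hp⟩
  have m1 : AdjoinRoot.mk p n₁ = AdjoinRoot.mk p w₁ ^ ℓ := by
    rw [← map_pow]; exact AdjoinRoot.mk_eq_mk.2 hw1
  have m2 : AdjoinRoot.mk p n₂ = AdjoinRoot.mk p w₂ ^ ℓ := by
    rw [← map_pow]; exact AdjoinRoot.mk_eq_mk.2 hw2
  have m3 := congrArg (AdjoinRoot.mk p) h5
  rw [map_mul, map_mul, map_mul, map_pow, map_pow, m1, m2] at m3
  have m4 : AdjoinRoot.mk p E' ^ ℓ * AdjoinRoot.mk p w₂ ^ ℓ ≠ 0 := by
    refine mul_ne_zero (pow_ne_zero _ fun h0 => hE' (AdjoinRoot.mk_eq_zero.1 h0)) ?_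
    rw [← m2]
    exact fun h0 => h2 (AdjoinRoot.mk_eq_zero.1 h0)
  obtain ⟨w, hw⟩ := AdjoinRoot.mk_surjective (g := p)
    (AdjoinRoot.mk p w₁ * AdjoinRoot.mk p S' / (AdjoinRoot.mk p E' * AdjoinRoot.mk p w₂))
  refine ⟨w, AdjoinRoot.mk_eq_mk.1 ?_⟩
  rw [map_pow, hw, div_pow, mul_pow, mul_pow, eq_div_iff m4, ← m3]
  ring

end pol

end Pool.Agent.Y333.FT2
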